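import Pool.Agent.H989.DY.Unif

/-!
# The uniform Anderson model: the threshold of dynamical localization in high dimension is `4 d log d`

`Δ_ω = -Δ + ω` on `ℓ²(ℤ^d)` with i.i.d. `ω_j` uniform on `[-c, c]`. Let `ψ` be the solution of the Schrödinger
equation `i ψ' = Δ_ω ψ`, `ψ(0) = δ_a` (it exists and is unique for every `ω`). Let `0 < ε < 1`. There are `d₀` and
`κ > 0` such that for all `d ≥ d₀`:

* (1) for `c ≥ (1 + ε) 4 d log d`: for each `η > 0` there is `R`, which depends on `ε` and `η` only, such that for each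
  site `a`, outside an event of probability `η`, the particle which starts at `a` is for all times within the
  distance `R` of `a` up to the probability `η`;
* (2) for `2 d ≤ c ≤ (1 - ε) 4 d log d`: for each site `a`, outside an event of probability `ε`, the particle which
  starts at `a` spends in each time interval `[0, T]` with `T ≥ exp (2 (log (2 d))³)` at most the fraction `ε` of the
  time within the distance `κ log d / (log log d)²` of `a`.

There is no assumption on the nature of the spectrum. `4 d log d = 4 ρ K log K` (leading order, `K = 2 d`, `ρ = 1 / 2`)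
is the threshold of the tree of degree `K`.
-/

set_option autoImplicit false
set_option linter.unusedVariables false

open scoped BigOperators
open MeasureTheory

namespace Pool.Agent.Results.MP_562b47_mp.DynamicalThreshold

/-- the uniform law on `[-c, c]` -/
noncomputable def unif (c : ℝ) : Measure ℝ :=
  (ENNReal.ofReal (2 * c))⁻¹ • volume.restrict (Set.Icc (-c) c)

/-- the law of the disorder: i.i.d. uniform on `[-c, c]` -/
noncomputable def law (d : ℕ) (c : ℝ) : Measure ((Fin d → ℤ) → ℝ) :=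
  Measure.infinitePi fun _ : Fin d → ℤ => unif c

/-- `(Δ_ω u)(x) = -∑_{|n| = 1} (u(x + n) - u(x)) + ω_x u(x)` -/
noncomputable def opH {d : ℕ} (ω : (Fin d → ℤ) → ℝ) (u : (Fin d → ℤ) → ℂ) (x : Fin d → ℤ) : ℂ :=
  -∑ i, ((u (x + Pi.single i 1) - u x) + (u (x - Pi.single i 1) - u x)) + (ω x : ℂ) * u x

/-- `ψ` is the wave packet which starts at `a`: the solution of `i ψ' = Δ_ω ψ`, `ψ(0) = δ_a`, with
`‖ψ(t)‖ = 1` in `ℓ²` for all times `t` -/
structure WavePacket {d : ℕ} (ω : (Fin d → ℤ) → ℝ) (a : Fin d → ℤ)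
    (ψ : ℝ → (Fin d → ℤ) → ℂ) : Prop where
  start : ∀ x, ψ 0 x = if x = a then 1 else 0
  schroedinger : ∀ t x, HasDerivAt (fun s => ψ s x) (-Complex.I * opH ω (ψ t) x) t
  normalized : ∀ t, HasSum (fun x => ‖ψ t x‖ ^ 2) 1

/-- for each site `a`, outside an event of probability at most `η`, for all times `t` the wave packet
which starts at `a` has at most the mass `η` at distances larger than `R` from `a` -/
def Stays (d : ℕ) (c R η : ℝ) : Prop :=
  ∀ a : Fin d → ℤ, ∃ G : Set ((Fin d → ℤ) → ℝ), MeasurableSet G ∧ 1 - η ≤ (law d c).real G ∧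
    ∀ ω ∈ G, ∀ ψ : ℝ → (Fin d → ℤ) → ℂ, WavePacket ω a ψ →
      ∀ (t : ℝ) (F : Finset (Fin d → ℤ)), (∀ y ∈ F, R < ∑ i, |(y i : ℝ)|) →
        ∑ y ∈ F, ‖ψ t (a + y)‖ ^ 2 ≤ η

/-- for each site `a`, outside an event of probability at most `η`, for all `T ≥ T₀` the time average
over `[0, T]` of the mass of the wave packet which starts at `a` at distances at most `r` from `a` is
at most `η` -/
def Leaves (d : ℕ) (c r T₀ η : ℝ) : Prop :=
  ∀ a : Fin d → ℤ, ∃ G : Set ((Fin d → ℤ) → ℝ), MeasurableSet G ∧ 1 - η ≤ (law d c).real G ∧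
    ∀ ω ∈ G, ∀ ψ : ℝ → (Fin d → ℤ) → ℂ, WavePacket ω a ψ →
      ∀ (T : ℝ) (F : Finset (Fin d → ℤ)), T₀ ≤ T → (∀ y ∈ F, ∑ i, |(y i : ℝ)| ≤ r) →
        (1 / T) * ∫ t in (0 : ℝ)..T, ∑ y ∈ F, ‖ψ t (a + y)‖ ^ 2 ≤ η

/-- the threshold `4 d log d` -/
noncomputable def threshold (d : ℕ) : ℝ := 4 * (d * Real.log d)

/-- the radius `κ log d / (log log d)²` -/
noncomputable def radius (κ : ℝ) (d : ℕ) : ℝ := κ * Real.log d / Real.log (Real.log d) ^ 2

/-- the time `exp (2 (log (2 d))³)` -/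
noncomputable def time (d : ℕ) : ℝ := Real.exp (2 * Real.log (2 * d) ^ 3)

theorem wave_iff {d : ℕ} {ω : (Fin d → ℤ) → ℝ} {a : Fin d → ℤ} {ψ : ℝ → (Fin d → ℤ) → ℂ} :
    WavePacket ω a ψ ↔ Pool.Agent.H989.DY.EvU d ω a ψ :=
  ⟨fun h => ⟨h.start, h.schroedinger, h.normalized⟩, fun h => ⟨h.init, h.ode, h.norm⟩⟩

/-- **The threshold of dynamical localization is `4 d log d`.** -/
theorem result (ε : ℝ) (hε : 0 < ε) (hε1 : ε < 1) :
    (∀ (d : ℕ) (ω : (Fin d → ℤ) → ℝ) (a : Fin d → ℤ), ∃! ψ, WavePacket ω a ψ) ∧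
    ∃ (d₀ : ℕ) (κ : ℝ), 0 < κ ∧
      -- above the threshold
      (∀ η : ℝ, 0 < η → ∃ R : ℕ, ∀ d : ℕ, d₀ ≤ d → ∀ c : ℝ, (1 + ε) * threshold d ≤ c →
        Stays d c R η) ∧
      -- below the threshold
      ∀ d : ℕ, d₀ ≤ d → ∀ c : ℝ, 2 * (d : ℝ) ≤ c → c ≤ (1 - ε) * threshold d →
        Leaves d c (radius κ d) (time d) ε := by
  obtain ⟨d₁, h1⟩ := Pool.Agent.H989.DY.locU hε
  obtain ⟨κ, hκ, d₂, h2⟩ := Pool.Agent.H989.DY.sprU hε hε1
  refine ⟨fun d ω a => ?_, max d₁ d₂, κ, hκ, fun η hη => ?_, fun d hd c hc1 hc2 a => ?_⟩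
  · obtain ⟨ψ, hψ⟩ := Pool.Agent.H989.DY.evU_exists ω a
    exact ⟨ψ, wave_iff.2 hψ, fun φ hφ => Pool.Agent.H989.DY.evU_unique (wave_iff.1 hφ) hψ⟩
  · obtain ⟨R, hR⟩ := h1 η hη
    refine ⟨R, fun d hd c hc a => ?_⟩
    obtain ⟨G, hG, hP, hG3⟩ := hR d ((le_max_left _ _).trans hd) c hc a
    exact ⟨G, hG, hP, fun ω hω ψ hψ t F hF => hG3 ω hω ψ (wave_iff.1 hψ) t F hF⟩
  · obtain ⟨G, hG, hP, hG3⟩ := h2 d ((le_max_right _ _).trans hd) c hc1 hc2 a
    exact ⟨G, hG, hP, fun ω hω ψ hψ T F hT hF => hG3 ω hω ψ (wave_iff.1 hψ) T hT F hF⟩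

end Pool.Agent.Results.MP_562b47_mp.DynamicalThreshold
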