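import Pool.Agent.H988.RS.Fin

/-!
# No resonances in the Anderson model, at any disorder

`Δ_ω = -Δ + ω` on `ℤ^d`, with iid `ω_j` whose law is absolutely continuous with bounded support,
for example uniform on `[-c, c]` with any `c > 0`. Nothing is assumed about the spectral type.

* Fix a frequency `λ ≠ 0`. Almost surely, every bounded operator `B` on `ℓ²(ℤ^d)` with
  `B e^{-itΔ_ω} = e^{iλt} e^{-itΔ_ω} B` (`B` shifts the energy by `λ`) vanishes on the singular
  subspace of `Δ_ω`. No translation covariance of `B` is assumed. (For two eigenvectors: no two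
  eigenvalues have the distance `λ`; but singular continuous spectrum is included.)
* The Heisenberg evolution of the observables (bounded, translation covariant fields of operators)
  has no eigenoperators with a frequency `λ ≠ 0`, on all of `ℓ²(ℤ^d)`.
* For every observable `A` there is a conserved observable `B`, which is a function of the energy
  `Δ_ω`, such that `E⟨φ, A(s) ψ⟩ → E⟨φ, B ψ⟩` in the square mean over the times `s`, for ALL square
  integrable random vectors `φ, ψ`, whatever their spectral type.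
* For the velocity `v = i[Δ_ω, x_j]` the limit is zero. In particular (Wiener) the velocity
  correlation measure, and with it the conductivity measure, has no atoms: neither at the
  frequency `0` nor at any other frequency.
-/

set_option autoImplicit false

open MeasureTheory Filter Topology
open scoped BigOperators ENNReal NNReal InnerProductSpace ComplexConjugate

namespace Pool.Agent.Results.MP_562b47_mp.NoResonances

/-- `ℓ²(ℤ^d)` -/
abbrev L2 (d : ℕ) : Type := lp (fun _ : Fin d → ℤ => ℂ) 2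

/-- potentials on `ℤ^d` -/
abbrev Pot (d : ℕ) : Type := (Fin d → ℤ) → ℝ

/-- the operator of the problem, `(Δ_ω u)(j) = -∑_{|n|=1} (u(j+n) - u(j)) + ω_j u(j)` (the unit
vectors `n` are `± e_i`) -/
noncomputable def H {d : ℕ} (ω : Pot d) (u : (Fin d → ℤ) → ℂ) (j : Fin d → ℤ) : ℂ :=
  -(∑ i : Fin d, ((u (j + Pi.single i 1) - u j) + (u (j - Pi.single i 1) - u j))) + (ω j : ℂ) * u j

/-- `U t = e^{-itΔ_ω}`: norm preserving maps of `ℓ²(ℤ^d)` with `U 0 = 1` and `i ∂_t (U_t u) = Δ_ω U_t u`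
at every site -/
structure IsPropagator {d : ℕ} (ω : Pot d) (U : ℝ → L2 d → L2 d) : Prop where
  zero : ∀ u, U 0 u = u
  norm : ∀ t u, ‖U t u‖ = ‖u‖
  schrodinger : ∀ u t j, HasDerivAt (fun s => (U s u) j)
    (-Complex.I * H ω (fun k => (U t u) k) j) t

/-- linear operators -/
def Linear {d : ℕ} (A : Pot d → L2 d → L2 d) : Prop :=
  ∀ (ω : Pot d) (c : ℂ) (u w : L2 d), A ω (c • u + w) = c • A ω u + A ω w

/-- bounded, uniformly in `ω` -/
def Bounded {d : ℕ} (A : Pot d → L2 d → L2 d) : Prop :=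
  ∃ M : ℝ, ∀ (ω : Pot d) (u : L2 d), ‖A ω u‖ ≤ M * ‖u‖

/-- `A_ω u` depends measurably on `ω` -/
def MeasurableField {d : ℕ} (A : Pot d → L2 d → L2 d) : Prop :=
  ∀ (u : L2 d) (j : Fin d → ℤ), Measurable fun ω => (A ω u) j

/-- covariant under all translations at `ω`: if `w = u(· + z)` then
`A_{ω(· + z)} w = (A_ω u)(· + z)` -/
def CovariantAt {d : ℕ} (A : Pot d → L2 d → L2 d) (ω : Pot d) : Prop :=
  ∀ (z : Fin d → ℤ) (u w : L2 d), (∀ j, w j = u (j + z)) →
    ∀ j, (A (fun k => ω (k + z)) w) j = (A ω u) (j + z)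

/-- the law of iid variables with law `μ` on `ℤ^d` -/
noncomputable def iid (d : ℕ) (μ : Measure ℝ) : Measure (Pot d) :=
  Measure.infinitePi fun _ => μ

/-- `A_ω` is an observable: linear operators, bounded uniformly in `ω`, measurable in `ω`, and
almost surely covariant under translations -/
structure IsObservable {d : ℕ} (μ : Measure ℝ) (A : Pot d → L2 d → L2 d) : Prop where
  linear : Linear A
  bounded : Bounded A
  measurable : MeasurableField A
  covariant : ∀ᵐ ω ∂(iid d μ), CovariantAt A ω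

/-- `m` is the spectral measure of `u`: the finite measure with
`⟨u, e^{-itΔ_ω} u⟩ = ∫ e^{-itE} dm(E)` -/
def IsSpectral {d : ℕ} (U : ℝ → L2 d → L2 d) (u : L2 d) (m : Measure ℝ) : Prop :=
  IsFiniteMeasure m ∧
    ∀ t : ℝ, ⟪u, U t u⟫_ℂ = ∫ E : ℝ, Complex.exp (-(Complex.I * t * E)) ∂m

/-- `u` is in the singular subspace: its spectral measure is singular -/
def IsSingular {d : ℕ} (U : ℝ → L2 d → L2 d) (u : L2 d) : Prop :=
  ∃ m : Measure ℝ, IsSpectral U u m ∧ m ⟂ₘ volume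

/-- the operator `B` shifts the energy by `lam`: `B e^{-itΔ_ω} = e^{i lam t} e^{-itΔ_ω} B` -/
def IsEigenoperator {d : ℕ} (U : ℝ → L2 d → L2 d) (lam : ℝ) (B : L2 d → L2 d) : Prop :=
  ∀ (t : ℝ) (u : L2 d), B (U t u) = Complex.exp (Complex.I * lam * t) • U t (B u)

/-- the operator `B` is conserved, `B e^{-itΔ_ω} = e^{-itΔ_ω} B` -/
def IsConserved {d : ℕ} (U : ℝ → L2 d → L2 d) (B : L2 d → L2 d) : Prop :=
  ∀ (t : ℝ) (u : L2 d), B (U t u) = U t (B u)

/-- `B` commutes with all bounded operators `T` which commute with `Δ_ω`. By the bicommutant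
theorem, the bounded `B` is a function `f(Δ_ω)` of the energy. -/
def IsFunctionOfEnergy {d : ℕ} (U : ℝ → L2 d → L2 d) (B : L2 d → L2 d) : Prop :=
  ∀ T : L2 d →L[ℂ] L2 d, IsConserved U T → ∀ u : L2 d, B (T u) = T (B u)

/-- the expectation `E⟨φ, ψ⟩` -/
noncomputable def mean {d : ℕ} (μ : Measure ℝ) (φ ψ : Pot d → L2 d) : ℂ :=
  ∫ ω, ⟪φ ω, ψ ω⟫_ℂ ∂(iid d μ)

/-- the observable at time `s`, `e^{isΔ} A e^{-isΔ}`, applied to `u` -/
def evolved {d : ℕ} (U : ℝ → L2 d → L2 d) (A : L2 d → L2 d) (s : ℝ) (u : L2 d) : L2 d :=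
  U (-s) (A (U s u))

/-- `F(s) → a` in the square mean over the times: `T⁻¹ ∫_0^T |F(s) - a|² ds → 0` for `T → ∞` -/
def MeanSquareLimit (F : ℝ → ℂ) (a : ℂ) : Prop :=
  Tendsto (fun T : ℝ => T⁻¹ * ∫ s in (0 : ℝ)..T, ‖F s - a‖ ^ 2) atTop (𝓝 0)

/-- `E⟨φ, A(s) ψ⟩ → E⟨φ, B ψ⟩` in the square mean over the times, for all square integrable random
vectors `φ` and `ψ` -/
def IsWeaklyMixing {d : ℕ} (μ : Measure ℝ) (U : Pot d → ℝ → L2 d → L2 d)
    (A B : Pot d → L2 d → L2 d) : Prop :=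
  ∀ φ ψ : Pot d → L2 d, MemLp φ 2 (iid d μ) → MemLp ψ 2 (iid d μ) →
    MeanSquareLimit (fun s => mean μ φ fun ω => evolved (U ω) (A ω) s (ψ ω))
      (mean μ φ fun ω => B ω (ψ ω))

/-- `v` is the velocity in the direction `j`, `v = i[Δ_ω, x_j]`:
`(v u)(x) = -i (u(x + e_j) - u(x - e_j))` -/
def IsVelocity {d : ℕ} (j : Fin d) (v : Pot d → L2 d → L2 d) : Prop :=
  ∀ (ω : Pot d) (u : L2 d) (x : Fin d → ℤ),
    (v ω u) x = -Complex.I * (u (x + Pi.single j 1) - u (x - Pi.single j 1))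

open Pool.Agent.H5R2 Pool.Agent.Y662.ERG Pool.Agent.H988.WM

theorem sol_of_prop {d : ℕ} {ω : (Fin d → ℤ) → ℝ} {U : ℝ → L2 d → L2 d}
    (hU : IsPropagator ω U) (u : L2 d) :
    NB.IsSol (-1) (fun x => 2 * d + ω x) (fun t => U t u) (fun _ => 0) := by
  refine ⟨fun T => ⟨‖u‖, fun t _ => (hU.norm t u).le⟩, fun t x => ?_⟩
  have h := hU.schrodinger u t x
  have e := NB.FIN.hop_eq ω (fun k => (U t u) k) x
  have e2 : -Complex.I * (NB.hopf (-1) (fun y => (U t u) y) x +
      (((fun x => 2 * d + ω x) x : ℝ) : ℂ) * (U t u) x) + ((0 : L2 d) : (Fin d → ℤ) → ℂ) x =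
      -Complex.I * H ω (fun k => (U t u) k) x := by
    have e3 : H ω (fun k => (U t u) k) x = -(∑ i : Fin d,
        (((U t u) (x + Pi.single i 1) - (U t u) x) + ((U t u) (x - Pi.single i 1) - (U t u) x))) +
        (ω x : ℂ) * (U t u) x := rfl
    rw [e3, ← e]
    simp
  rw [e2]
  exact h

theorem prop_of_grp {d : ℕ} {ω : (Fin d → ℤ) → ℝ} {W : NB.UG (NB.L2 (NB.Site d))}
    (hW : NB.IsGrp (-1) (fun x => 2 * d + ω x) W) : IsPropagator ω (fun t u => W.U t u) := by
  refine ⟨W.zero', W.norm', fun u t x => ?_⟩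
  have h := (hW u).2 t x
  have e := NB.FIN.hop_eq ω (fun k => (W.U t u) k) x
  have e3 : H ω (fun k => (W.U t u) k) x = -(∑ i : Fin d,
        (((W.U t u) (x + Pi.single i 1) - (W.U t u) x) +
          ((W.U t u) (x - Pi.single i 1) - (W.U t u) x))) + (ω x : ℂ) * (W.U t u) x := rfl
  rw [e3, ← e]
  simpa using h

theorem prop_eq {d : ℕ} {ω : (Fin d → ℤ) → ℝ} {W : NB.UG (NB.L2 (NB.Site d))}
    (hW : NB.IsGrp (-1) (fun x => 2 * d + ω x) W) {U : ℝ → L2 d → L2 d}
    (hU : IsPropagator ω U) (t : ℝ) (u : L2 d) : U t u = W.U t u := by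
  have h := NB.ALL.a_UN d (-1) _ W hW (fun t => U t u) (fun _ => 0)
    continuous_const (sol_of_prop hU u) t
  simpa [hU.zero u] using h

/-- the bounded operator -/
noncomputable def toOp {d : ℕ} (A : L2 d → L2 d)
    (hl : ∀ (c : ℂ) (u w : L2 d), A (c • u + w) = c • A u + A w)
    (hb : ∃ M : ℝ, ∀ u, ‖A u‖ ≤ M * ‖u‖) : L2 d →L[ℂ] L2 d :=
  have h0 : A 0 = 0 := by
    have h := hl (-1) 0 0
    simpa using h
  LinearMap.mkContinuousOfExistsBound
    { toFun := A
      map_add' := fun u w => by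
        have h := hl 1 u w
        rwa [one_smul, one_smul] at h
      map_smul' := fun c u => by
        have h := hl c u 0
        rwa [add_zero, h0, add_zero] at h } hb

theorem obs_of {d : ℕ} {μ : Measure ℝ} [IsProbabilityMeasure μ] {A : Pot d → L2 d → L2 d}
    (hA : IsObservable μ A) :
    ∃ (v : Pot d → L2 d →L[ℂ] L2 d) (M : ℝ), (∀ᵐ ω ∂(iid d μ), ∀ u, v ω u = A ω u) ∧
      Pool.Agent.R988.NQ.Fld M v ∧ Pool.Agent.R988.NQ.Fld M (Pool.Agent.R988.NQ.adjF v) := by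
  obtain ⟨M, hM⟩ := hA.bounded
  have hM0 : 0 ≤ M := by
    have h1 := hM 0 (NB.dl 0)
    rw [NB.STAT.norm_dl, mul_one] at h1
    exact (norm_nonneg _).trans h1
  obtain ⟨W, hWA⟩ : ∃ W : Pot d → L2 d →L[ℂ] L2 d, ∀ ω u, W ω u = A ω u :=
    ⟨fun ω => toOp (A ω) (hA.linear ω) ⟨M, hM ω⟩, fun ω u => rfl⟩
  have hcv : ∀ᵐ V ∂(NB.PP d μ), ∀ (z : NB.Site d)
      (S : NB.L2 (NB.Site d) →L[ℂ] NB.L2 (NB.Site d)), NB.IsShift z S → ∀ ψ,
        W (fun y => V (y + z)) (S ψ) = S (W V ψ) := by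
    have h1 : ∀ᵐ ω ∂(NB.PP d μ), CovariantAt A ω := hA.covariant
    filter_upwards [h1] with ω hω z S hS ψ
    ext j
    rw [hWA, hWA, hω z ψ (S ψ) (fun k => hS ψ k) j, hS]
  have hmW : ∀ (u : L2 d) (j : Fin d → ℤ), Measurable fun ω => (W ω u) j := by
    intro u j
    simp only [hWA]
    exact hA.measurable u j
  obtain ⟨W', hW1, hW2, hW3, hW4⟩ := Pool.Agent.R988.NQ.fix_cov hmW hcv
  have hb' : ∀ V ψ, ‖W' V ψ‖ ≤ M * ‖ψ‖ := by
    intro V ψ
    rcases hW1 V with h | h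
    · rw [h, hWA]
      exact hM V ψ
    · rw [h, zero_apply, norm_zero]
      positivity
  refine ⟨W', M, ?_, Pool.Agent.R988.NQ.flds hb' hW2 hW3⟩
  have h2 : ∀ᵐ ω ∂(NB.PP d μ), ∀ u, W' ω u = A ω u := by
    filter_upwards [hW4] with ω hω u
    rw [hω, hWA]
  exact h2

theorem obs_of_fld {d : ℕ} (μ : Measure ℝ) {B : Pot d → L2 d →L[ℂ] L2 d} {C : ℝ}
    (hB : Pool.Agent.R988.NQ.Fld C B) : IsObservable μ fun ω u => B ω u := by
  refine ⟨fun ω c u w => ?_, ⟨C, hB.bd⟩, fun u x => ?_, Eventually.of_forall fun ω z u w hw j => ?_⟩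
  · show B ω (c • u + w) = c • B ω u + B ω w
    rw [map_add, map_smul]
  · have h1 := hB.meas (fun _ => u) stronglyMeasurable_const
    exact ((NB.STAT.cont_eval x).comp_stronglyMeasurable h1).measurable
  · have h1 : w = Pool.Agent.R988.NQ.sO z u := by
      ext x
      rw [Pool.Agent.R988.NQ.sO_shift, hw]
    show (B (fun k => ω (k + z)) w) j = (B ω u) (j + z)
    rw [h1]
    have h2 := hB.cov z (Pool.Agent.R988.NQ.sO z) (Pool.Agent.R988.NQ.sO_shift z) ω u
    have h3 : B (fun k => ω (k + z)) (Pool.Agent.R988.NQ.sO z u) = Pool.Agent.R988.NQ.sO z (B ω u) := h2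
    rw [h3, Pool.Agent.R988.NQ.sO_shift]

theorem ph_exp (lam t : ℝ) : ph lam (-t) = Complex.exp (Complex.I * lam * t) := by
  unfold ph
  congr 1
  push_cast
  ring

/-- Let `d ≥ 1`, and let the law `μ` of the potential be absolutely continuous with bounded
support. For every potential the unitary group exists and is unique. (1) For every `lam ≠ 0`,
almost surely every bounded operator which shifts the energy by `lam` vanishes on the singular
subspace. (2) An observable which almost surely shifts the energy by `lam ≠ 0` is almost surely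
zero. (3) For every observable `A` there is a conserved observable `B`, almost surely a function of
the energy, such that `E⟨φ, A(s) ψ⟩ → E⟨φ, B ψ⟩` in the square mean over the times for all square
integrable random vectors `φ`, `ψ`. (4) For the velocities, the limit is zero. -/
theorem result (d : ℕ) (hd : 1 ≤ d) (μ : Measure ℝ) [IsProbabilityMeasure μ] (hμ : μ ≪ volume)
    (hb : ∃ K : ℝ, ∀ᵐ r ∂μ, |r| ≤ K) :
    (∀ ω : Pot d, ∃! U : ℝ → L2 d → L2 d, IsPropagator ω U) ∧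
    ∀ U : Pot d → ℝ → L2 d → L2 d, (∀ ω, IsPropagator ω (U ω)) →
      (∀ lam : ℝ, lam ≠ 0 → ∀ᵐ ω ∂(iid d μ), ∀ B : L2 d →L[ℂ] L2 d,
        IsEigenoperator (U ω) lam B → ∀ u : L2 d, IsSingular (U ω) u → B u = 0) ∧
      (∀ A : Pot d → L2 d → L2 d, IsObservable μ A →
        (∀ lam : ℝ, lam ≠ 0 → (∀ᵐ ω ∂(iid d μ), IsEigenoperator (U ω) lam (A ω)) →
          ∀ᵐ ω ∂(iid d μ), ∀ u : L2 d, A ω u = 0) ∧
        ∃ B : Pot d → L2 d → L2 d, IsObservable μ B ∧
          (∀ᵐ ω ∂(iid d μ), IsConserved (U ω) (B ω) ∧ IsFunctionOfEnergy (U ω) (B ω)) ∧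
          IsWeaklyMixing μ U A B) ∧
      ∀ j : Fin d, ∃ v : Pot d → L2 d → L2 d, IsVelocity j v ∧ IsObservable μ v ∧
        IsWeaklyMixing μ U v (fun _ _ => 0) := by
  obtain ⟨K, hK⟩ := hb
  refine ⟨fun ω => ?_, fun U hU => ?_⟩
  · obtain ⟨W, hW⟩ := NB.ALL.a_EX d (-1) (fun x => 2 * d + ω x)
    refine ⟨fun t u => W.U t u, prop_of_grp hW, fun U hU => ?_⟩
    funext t u
    exact prop_eq hW hU t u
  choose ev hev using fun ω : NB.Site d → ℝ => NB.ALL.a_EX d (-1) (fun x => 2 * d + ω x)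
  have hUe : ∀ ω t u, U ω t u = (ev ω).U t u := fun ω t u => prop_eq (hev ω) (hU ω) t u
  have hν : ∀ r : ℝ, μ {r} ≠ 1 := Pool.Agent.H988.RS.no_one hμ
  -- the passage from the curves of operators to the correlation functions
  have hconv : ∀ (A B : Pot d → L2 d → L2 d) (v w : Pot d → L2 d →L[ℂ] L2 d) (M C : ℝ),
      (∀ᵐ ω ∂(iid d μ), ∀ u, v ω u = A ω u) → (∀ ω u, w ω u = B ω u) →
      Pool.Agent.R988.NQ.Fld M v → Pool.Agent.R988.NQ.Fld C w →
      (∀ V t x, w V ((ev V).U t x) = (ev V).U t (w V x)) →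
      (∀ ψ : (NB.Site d → ℝ) → L2 d, MemLp ψ 2 (NB.PP d μ) →
        Wk (NB.PP d μ) (Hz ev (Pool.Agent.R988.NQ.subF v w)) ψ) → IsWeaklyMixing μ U A B := by
    intro A B v w M C hvA hwB hO hB cB hW φ ψ hφ hψ
    have hφ' : MemLp φ 2 (NB.PP d μ) := hφ
    have hψ' : MemLp ψ 2 (NB.PP d μ) := hψ
    have hLv := lo_Hz hev μ hO.nonneg hO
    have hLB := lo_Hz hev μ hB.nonneg hB
    have h2 := hW ψ hψ' φ hφ'
    refine h2.congr fun T => ?_
    congr 1
    refine intervalIntegral.integral_congr fun s _ => ?_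
    show ‖∫ ω, ⟪φ ω, Hz ev (Pool.Agent.R988.NQ.subF v w) s ω (ψ ω)⟫_ℂ ∂(NB.PP d μ)‖ ^ 2 =
      ‖mean μ φ (fun ω => evolved (U ω) (A ω) s (ψ ω)) - mean μ φ fun ω => B ω (ψ ω)‖ ^ 2
    congr 2
    have e1 : mean μ φ (fun ω => evolved (U ω) (A ω) s (ψ ω)) =
        ∫ ω, ⟪φ ω, Hz ev v s ω (ψ ω)⟫_ℂ ∂(NB.PP d μ) := by
      refine integral_congr_ae ?_
      filter_upwards [hvA] with ω hω
      unfold evolved
      rw [hUe, hUe, ← hω, Hz_apply]
    have e2 : mean μ φ (fun ω => B ω (ψ ω)) =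
        ∫ ω, ⟪φ ω, Hz ev w s ω (ψ ω)⟫_ℂ ∂(NB.PP d μ) := by
      refine integral_congr_ae (Eventually.of_forall fun ω => ?_)
      show ⟪φ ω, B ω (ψ ω)⟫_ℂ = ⟪φ ω, Hz ev w s ω (ψ ω)⟫_ℂ
      rw [Hz_cons cB, hwB]
    rw [e1, e2, ← integral_sub (hLv.integ hφ' hψ' s) (hLB.integ hφ' hψ' s)]
    refine integral_congr_ae (Eventually.of_forall fun ω => ?_)
    simp only [Hz_sub, inner_sub_right]
  refine ⟨fun lam hl => ?_, fun A hA => ⟨fun lam hl hc => ?_, ?_⟩, fun j => ?_⟩
  · -- the singular subspace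
    have h1 := Pool.Agent.H988.RS.good_off hev μ hμ hl
    have h2 : ∀ᵐ ω ∂(iid d μ), Pool.Agent.H988.RS.GoodW (ev ω) lam := h1
    filter_upwards [h2] with ω hω B hB u hu
    obtain ⟨m, hm, hs⟩ := hu
    have h3 : Pool.Agent.K7.H83.SI.sm (ev ω) u = m := by
      refine Pool.Agent.K7.H83.SI.sm_eq ⟨hm.1, fun t => ?_⟩
      rw [← hUe, hm.2 t]
    refine Pool.Agent.H988.RS.kill_sing (μ := lam) (fun t x => ?_) hω (u := u) (by rwa [h3])
    rw [ph_exp, ← hUe, ← hUe]
    exact hB t x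
  · -- no eigenoperators
    obtain ⟨v, M, hvA, hO, hO'⟩ := obs_of hA
    have h1 : ∀ᵐ ω ∂(NB.PP d μ), ∀ t x, v ω ((ev ω).U t x) =
        ph lam (-t) • (ev ω).U t (v ω x) := by
      have hc' : ∀ᵐ ω ∂(NB.PP d μ), IsEigenoperator (U ω) lam (A ω) := hc
      have hv' : ∀ᵐ ω ∂(NB.PP d μ), ∀ u, v ω u = A ω u := hvA
      filter_upwards [hc', hv'] with ω e1 e2 t x
      rw [e2, e2, ph_exp, ← hUe, ← hUe]
      exact e1 t x
    have h2 := Pool.Agent.H988.RS.no_eig_all hd hK hμ hev hO hO' hl h1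
    have h3 : ∀ᵐ ω ∂(iid d μ), v ω = 0 := h2
    filter_upwards [h3, hvA] with ω e1 e2 u
    rw [← e2, e1, zero_apply]
  · -- weak mixing
    obtain ⟨v, M, hvA, hO, hO'⟩ := obs_of hA
    obtain ⟨B, C, hC, hB, hB', cB, lB⟩ := lim_gen (ν := μ) hev hO hO'
    refine ⟨fun ω u => B ω u, obs_of_fld μ hB, ?_, ?_⟩
    · have h1 := Pool.Agent.H988.RS.bic hd hK hμ hev hB (Eventually.of_forall cB)
      have h2 : ∀ᵐ ω ∂(iid d μ), ∀ T : L2 d →L[ℂ] L2 d,
        (∀ t x, T ((ev ω).U t x) = (ev ω).U t (T x)) → ∀ x, B ω (T x) = T (B ω x) := h1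
      filter_upwards [h2] with ω hω
      refine ⟨fun t u => ?_, fun T hT u => ?_⟩
      · show B ω (U ω t u) = U ω t (B ω u)
        rw [hUe, hUe, cB]
      · refine hω T (fun t x => ?_) u
        have h3 := hT t x
        rwa [hUe, hUe] at h3
    · exact hconv A (fun ω u => B ω u) v B M C hvA (fun ω u => rfl) hO hB cB fun ψ hψ =>
        Pool.Agent.H988.RS.wk_of_lim hd hK hμ hev hO hO' hB hB' cB lB hψ
  · -- the velocity
    obtain ⟨v, hv⟩ := (NB.t_OPS d).2.2 (-1) j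
    have hf := (Pool.Agent.H988.RS.vel_fld hv).1
    refine ⟨fun _ u => v u, fun ω u x => ?_, obs_of_fld μ hf, ?_⟩
    · show (v u) x = _
      rw [hv]
      push_cast
      ring
    · refine hconv (fun _ u => v u) (fun _ _ => 0) (fun _ => v) (fun _ => 0) _ 0
        (Eventually.of_forall fun ω u => rfl) (fun ω u => rfl) hf ?_ (fun V t x => ?_) ?_
      · refine ⟨fun V ψ => ?_, fun f hf => ?_, fun z S hS V ψ => ?_⟩
        · rw [zero_apply, norm_zero, zero_mul]
        · simp only [zero_apply]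
          exact stronglyMeasurable_const
        · rw [zero_apply, zero_apply, map_zero]
      · rw [zero_apply, zero_apply, map_zero]
      · intro ψ hψ
        have h1 := Pool.Agent.H988.RS.vel_wk hd hK hμ hev hv hψ
        have e : Pool.Agent.R988.NQ.subF (fun _ => v : Pot d → L2 d →L[ℂ] L2 d) (fun _ => 0) =
            fun _ => v := by
          funext V
          show v - 0 = v
          exact sub_zero v
        rw [e]
        exact h1

end Pool.Agent.Results.MP_562b47_mp.NoResonances
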