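import Pool.Agent.H121.SH.Fin
import Pool.Agent.H989.SB.FinU3

/-!
# The uniform Anderson model: the threshold of strong localization in high dimension is `4 d log d`

`Δ_ω = -Δ + ω` on `ℓ²(ℤ^d)` with i.i.d. `ω_j` uniform on `[-c, c]`; `2 d` is the centre of the spectrum. Let
`0 ≤ b < 1` and `0 < ε < 1`. There are `d₀` and `γ, κ > 0` such that for all `d ≥ d₀`:

* for `c ≥ (1 + ε) 4 d log d`, almost surely the spectrum is purely singular (the statement of Q1), in fact pure
  point, all eigenvalues are simple and all eigenfunctions decay exponentially with the rate `γ`; the localization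
  radii are bounded uniformly in `d` and `c`: for `η > 0` there is `R` such that at each site `a`, outside an event
  of probability `η`, the eigenfunctions which have at least the part `η` of their mass farther than `R` from `a`
  have together at most the weight `η` at `a`;
* for `2 d ≤ c ≤ (1 - ε) 4 d log d` the eigenfunctions with `|E - 2 d| ≤ b c`, if there are any, are spread: at each
  site `a`, outside an event of probability `ε`, those which have at least the part `1 / N` of their mass within the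
  distance `R` of `a` have together at most the weight `ε` at `a`, where `R = κ log d / (log log d)²` and
  `N = exp (κ (log d / log log d)²)` is larger than every power of `d`; and, for every finite set `Λ` of sites, at
  most `ε |Λ|` orthonormal ones have at least the part `ε` of their mass on at most `N` sites of `Λ`.

`4 d log d = 4 ρ K log K` (leading order, `K = 2 d`, `ρ = 1 / 2`) is the threshold of the tree of degree `K`.
-/

set_option autoImplicit false
set_option linter.unusedVariables false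

open scoped BigOperators
open MeasureTheory

namespace Pool.Agent.Results.MP_562b47_mp.SharpThreshold

/-- the uniform law on `[-c, c]` -/
noncomputable def unif (c : ℝ) : Measure ℝ :=
  (ENNReal.ofReal (2 * c))⁻¹ • volume.restrict (Set.Icc (-c) c)

/-- the law of the disorder: i.i.d. uniform on `[-c, c]` -/
noncomputable def law (d : ℕ) (c : ℝ) : Measure ((Fin d → ℤ) → ℝ) :=
  Measure.infinitePi fun _ : Fin d → ℤ => unif c

/-- `(Δ_ω u)(x) = -∑_{|n| = 1} (u(x + n) - u(x)) + ω_x u(x)` -/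
noncomputable def opH {d : ℕ} (ω : (Fin d → ℤ) → ℝ) (u : (Fin d → ℤ) → ℂ) (x : Fin d → ℤ) : ℂ :=
  -∑ i, ((u (x + Pi.single i 1) - u x) + (u (x - Pi.single i 1) - u x)) + (ω x : ℂ) * u x

/-- square summable functions -/
def SqSummable {X : Type} (u : X → ℂ) : Prop := Summable fun x => ‖u x‖ ^ 2

/-- `m` is the spectral measure of the vector `f`: a finite measure whose Borel transform
`∫ (E - z)⁻¹ dm(E)` is `⟨f, (T - z)⁻¹ f⟩` for all non-real `z` -/
def IsSpectralMeasure {X : Type} (T : (X → ℂ) → X → ℂ) (f : X → ℂ) (m : Measure ℝ) : Prop :=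
  IsFiniteMeasure m ∧ ∀ z : ℂ, z.im ≠ 0 → ∃ u : X → ℂ, SqSummable u ∧
    (∀ x, T u x - z * u x = f x) ∧ ∫ E : ℝ, ((E : ℂ) - z)⁻¹ ∂m = ∑' x, (starRingEnd ℂ) (f x) * u x

/-- every vector has a spectral measure -/
def HasSpectralMeasures {X : Type} (T : (X → ℂ) → X → ℂ) : Prop :=
  ∀ f : X → ℂ, SqSummable f → ∃ m : Measure ℝ, IsSpectralMeasure T f m

/-- the spectrum is pure point: all spectral measures are carried by countable sets -/
def PurePoint {X : Type} (T : (X → ℂ) → X → ℂ) : Prop :=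
  ∀ (f : X → ℂ) (m : Measure ℝ), SqSummable f → IsSpectralMeasure T f m →
    ∃ N : Set ℝ, N.Countable ∧ m Nᶜ = 0

/-- the spectrum is purely singular: all spectral measures are singular -/
def PurelySingular {X : Type} (T : (X → ℂ) → X → ℂ) : Prop :=
  ∀ (f : X → ℂ) (m : Measure ℝ), SqSummable f → IsSpectralMeasure T f m → m ⟂ₘ volume

/-- all `ℓ²`-eigenfunctions decay exponentially, with the rate `γ` -/
def ExponentialDecay {d : ℕ} (T : ((Fin d → ℤ) → ℂ) → (Fin d → ℤ) → ℂ) (γ : ℝ) : Prop :=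
  ∀ (E : ℝ) (u : (Fin d → ℤ) → ℂ), SqSummable u → (∀ x, T u x = E * u x) →
    Summable fun x => Real.exp (γ * ∑ i, |(x i : ℝ)|) * ‖u x‖ ^ 2

/-- all eigenvalues are simple -/
def SimpleEigenvalues {X : Type} (T : (X → ℂ) → X → ℂ) : Prop :=
  ∀ (E : ℝ) (u v : X → ℂ), SqSummable u → SqSummable v → (∀ x, T u x = E * u x) →
    (∀ x, T v x = E * v x) → (∃ x, u x ≠ 0) → ∃ a : ℂ, ∀ x, v x = a * u x

/-- complete localization with the rate `γ`, almost surely -/
def Localized (d : ℕ) (c γ : ℝ) : Prop :=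
  ∀ᵐ ω ∂(law d c), HasSpectralMeasures (opH ω) ∧ PurelySingular (opH ω) ∧ PurePoint (opH ω) ∧
    ExponentialDecay (opH ω) γ ∧ SimpleEigenvalues (opH ω)

/-- `u` is an orthonormal family of `ℓ²`-eigenfunctions of `Δ_ω` with energies in `J` -/
def EigenFamily {d : ℕ} (ω : (Fin d → ℤ) → ℝ) (J : Set ℝ) {n : ℕ}
    (u : Fin n → lp (fun _ : Fin d → ℤ => ℂ) 2) : Prop :=
  Orthonormal ℂ u ∧ ∃ E : Fin n → ℝ, (∀ j x, opH ω (u j) x = E j * u j x) ∧ ∀ j, E j ∈ J

/-- at least the mass `m` of `u` lies at finitely many sites whose distance from `a` is in `D` -/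
def MassAround {d : ℕ} (a : Fin d → ℤ) (D : Set ℝ) (m : ℝ)
    (u : lp (fun _ : Fin d → ℤ => ℂ) 2) : Prop :=
  ∃ A : Finset (Fin d → ℤ), (∀ y ∈ A, ∑ i, |(y i : ℝ)| ∈ D) ∧ m ≤ ∑ y ∈ A, ‖u (a + y)‖ ^ 2

/-- for each site `a`, outside an event of probability at most `η`, the eigenfunctions with energy in
`J` of which at least the mass `m` lies at distances in `D` from `a` have the total weight at most `η`
at `a` -/
def Rare (d : ℕ) (c : ℝ) (J D : Set ℝ) (m η : ℝ) : Prop :=
  ∀ a : Fin d → ℤ, ∃ G : Set ((Fin d → ℤ) → ℝ), MeasurableSet G ∧ 1 - η ≤ (law d c).real G ∧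
    ∀ ω ∈ G, ∀ (n : ℕ) (u : Fin n → lp (fun _ : Fin d → ℤ => ℂ) 2), EigenFamily ω J u →
      (∀ j, MassAround a D m (u j)) → ∑ j, ‖u j a‖ ^ 2 ≤ η

/-- for each finite set `Λ` of sites, outside an event of probability at most `η`, at most `η |Λ|`
orthonormal eigenfunctions with energy in `J` have at least the mass `η` on at most `N` sites of
`Λ` -/
def RareOnFewSites (d : ℕ) (c : ℝ) (J : Set ℝ) (N η : ℝ) : Prop :=
  ∀ Λ : Finset (Fin d → ℤ), ∃ G : Set ((Fin d → ℤ) → ℝ), MeasurableSet G ∧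
    1 - η ≤ (law d c).real G ∧
    ∀ ω ∈ G, ∀ (n : ℕ) (u : Fin n → lp (fun _ : Fin d → ℤ => ℂ) 2), EigenFamily ω J u →
      (∀ j, ∃ S : Finset (Fin d → ℤ), S ⊆ Λ ∧ (S.card : ℝ) ≤ N ∧ η ≤ ∑ x ∈ S, ‖u j x‖ ^ 2) →
      (n : ℝ) ≤ η * Λ.card

/-- the threshold `4 d log d` -/
noncomputable def threshold (d : ℕ) : ℝ := 4 * (d * Real.log d)

/-- the radius `κ log d / (log log d)²` -/
noncomputable def radius (κ : ℝ) (d : ℕ) : ℝ := κ * Real.log d / Real.log (Real.log d) ^ 2

/-- the number of sites `exp (κ (log d / log log d)²)` -/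
noncomputable def number (κ : ℝ) (d : ℕ) : ℝ := Real.exp (κ * (Real.log d / Real.log (Real.log d)) ^ 2)

/-- **The threshold of strong localization is `4 d log d`.** -/
theorem result (b ε : ℝ) (hb : 0 ≤ b) (hb1 : b < 1) (hε : 0 < ε) (hε1 : ε < 1) :
    ∃ (d₀ : ℕ) (γ κ : ℝ), 0 < γ ∧ 0 < κ ∧
      -- above the threshold
      (∀ d : ℕ, d₀ ≤ d → ∀ c : ℝ, (1 + ε) * threshold d ≤ c → Localized d c γ) ∧
      (∀ η : ℝ, 0 < η → ∃ R : ℕ, ∀ d : ℕ, d₀ ≤ d → ∀ c : ℝ, (1 + ε) * threshold d ≤ c →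
        Rare d c Set.univ (Set.Ioi R) η η) ∧
      -- below the threshold
      ∀ d : ℕ, d₀ ≤ d → ∀ c : ℝ, 2 * (d : ℝ) ≤ c → c ≤ (1 - ε) * threshold d →
        Rare d c {E | |E - 2 * d| ≤ b * c} (Set.Iic (radius κ d)) (1 / number κ d) ε ∧
        RareOnFewSites d c {E | |E - 2 * d| ≤ b * c} (number κ d) ε := by
  obtain ⟨d₁, γ, hγ, h1, h2⟩ := Pool.Agent.H121.SH.fin_unif ε hε
  obtain ⟨κ, hκ, d₂, h3⟩ := Pool.Agent.H989.SB.sb_unif3 hb hb1 hε hε1
  have hnum : ∀ d : ℕ, 1 / number κ d =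
      Real.exp (-(κ * (Real.log d / Real.log (Real.log d)) ^ 2)) := by
    intro d; rw [number, Real.exp_neg, one_div]
  refine ⟨max d₁ d₂, γ, κ, hγ, hκ, fun d hd c hc => ?_, fun η hη => ?_, fun d hd c hc1 hc2 => ?_⟩
  · show ∀ᵐ ω ∂(law d c), _
    filter_upwards [h1 d ((le_max_left _ _).trans hd) c hc] with ω hω
    have hpp : PurePoint (opH ω) := hω.1
    refine ⟨Pool.Agent.H121.SH.opH_sp ω, fun f m hf hm => ?_, hpp, fun E u hu hE => ?_, hω.2.2⟩
    · obtain ⟨N, hN, hmN⟩ := hpp f m hf hm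
      refine ⟨Nᶜ, hN.measurableSet.compl, hmN, ?_⟩
      rw [compl_compl]
      exact hN.measure_zero volume
    · refine (hω.2.1 E u hu hE).congr fun x => ?_
      congr 3
      unfold Pool.Agent.H121.SH.ra
      push_cast
      refine Finset.sum_congr rfl fun i _ => ?_
      simp
  · obtain ⟨R, hR⟩ := h2 (min η (η ^ 2)) (lt_min hη (by positivity))
    refine ⟨R, fun d hd c hc a => ?_⟩
    obtain ⟨G, hG, hP, hG3⟩ := hR d ((le_max_left _ _).trans hd) c hc a
    have hm1 : min η (η ^ 2) ≤ η := min_le_left _ _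
    have hm2 : min η (η ^ 2) ≤ η ^ 2 := min_le_right _ _
    refine ⟨G, hG, le_trans (by linarith) hP, fun ω hω n u hu hA3 => ?_⟩
    obtain ⟨hu1, E, hE1, -⟩ := hu
    classical
    choose A hA1 hA2 using hA3
    have h4 := hG3 ω hω n u E hu1 hE1 (Finset.univ.biUnion A) (fun y hy => by
      obtain ⟨j, -, hj⟩ := Finset.mem_biUnion.mp hy
      have := hA1 j y hj
      have h5 : ((R : ℤ) : ℝ) < ((∑ i, |y i| : ℤ) : ℝ) := by push_cast; exact this
      exact_mod_cast h5)
    have h5 : η * ∑ j, ‖u j a‖ ^ 2 ≤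
        ∑ j, ∑ y ∈ Finset.univ.biUnion A, ‖u j a‖ ^ 2 * ‖u j (a + y)‖ ^ 2 := by
      rw [Finset.mul_sum]
      refine Finset.sum_le_sum fun j _ => ?_
      rw [← Finset.mul_sum, mul_comm]
      refine mul_le_mul_of_nonneg_left ?_ (by positivity)
      refine (hA2 j).trans (Finset.sum_le_sum_of_subset_of_nonneg ?_ fun _ _ _ => by positivity)
      exact Finset.subset_biUnion_of_mem A (Finset.mem_univ j)
    have h6 : η * ∑ j, ‖u j a‖ ^ 2 ≤ η * η := by
      calc _ ≤ _ := h5
        _ ≤ _ := h4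
        _ ≤ η ^ 2 := hm2
        _ = η * η := by ring
    exact le_of_mul_le_mul_left h6 hη
  · have h5 := h3 d ((le_max_right _ _).trans hd) c hc1 hc2
    refine ⟨fun a => ?_, fun Λ => ?_⟩
    · obtain ⟨G, hG, hP, hG3⟩ := h5.1 a
      refine ⟨G, hG, hP, fun ω hω n u hu hA => ?_⟩
      obtain ⟨hu1, E, hE1, hE2⟩ := hu
      refine hG3 ω hω n u E hu1 hE1 hE2 fun j => ?_
      obtain ⟨A, hA1, hA2⟩ := hA j
      refine ⟨A, fun y hy => hA1 y hy, le_trans (le_of_eq ?_) hA2⟩
      rw [hnum]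
    · obtain ⟨G, hG, hP, hG3⟩ := h5.2 Λ
      refine ⟨G, hG, hP, fun ω hω n u hu hS => ?_⟩
      obtain ⟨hu1, E, hE1, hE2⟩ := hu
      exact hG3 ω hω n u E hu1 hE1 hE2 hS

end Pool.Agent.Results.MP_562b47_mp.SharpThreshold
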