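import Pool.Agent.H988.WM.Cor

/-!
# Weak mixing on the absolutely continuous subspace of the uniform Anderson model

`Δ_ω = -Δ + ω` on `ℤ^d`, with iid `ω_j` uniform on `[-c, c]`, any `c > 0`. An observable is a
family `A_ω` of bounded operators which depend measurably on `ω` and are almost surely covariant
under translations; no locality and no self-adjointness is assumed. `A_ω(s) = e^{isΔ} A_ω e^{-isΔ}`.
Suppose that the absolutely continuous subspace of `Δ_ω` is not zero (otherwise the theorem says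
nothing). Then the evolution of the observables on this subspace is weakly mixing: for every
observable there is a deterministic bounded Borel function `f`, its microcanonical average, such
that for all square integrable random states `ψ` of the absolutely continuous subspace and all
square integrable random vectors `φ`, `E⟨φ, A(s) ψ⟩ → E⟨φ, f(Δ_ω) ψ⟩` in the square mean over the
times `s` (equivalently, for `s → ∞` outside of a set of times of density zero). In terms of the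
correlation functions of two observables: if `p` is the absolutely continuous part of `δ_0` and `κ`
the density of states of the absolutely continuous subspace, then
`E⟨A' p, A(s) p⟩ → ∫ conj(f') f dκ` in the square mean over the times.
-/

set_option autoImplicit false

open MeasureTheory Filter Topology
open scoped BigOperators ENNReal NNReal InnerProductSpace ComplexConjugate

namespace Pool.Agent.Results.MP_562b47_mp.WeakMixing

/-- `ℓ²(ℤ^d)` -/
abbrev L2 (d : ℕ) : Type := lp (fun _ : Fin d → ℤ => ℂ) 2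

/-- potentials on `ℤ^d` -/
abbrev Pot (d : ℕ) : Type := (Fin d → ℤ) → ℝ

/-- the operator of the problem, `(Δ_ω u)(j) = -∑_{|n|=1} (u(j+n) - u(j)) + ω_j u(j)` (the unit
vectors `n` are `± e_i`) -/
noncomputable def H {d : ℕ} (ω : Pot d) (u : (Fin d → ℤ) → ℂ) (j : Fin d → ℤ) : ℂ :=
  -(∑ i : Fin d, ((u (j + Pi.single i 1) - u j) + (u (j - Pi.single i 1) - u j))) + (ω j : ℂ) * u j

/-- `U t = e^{-itΔ_ω}`: norm preserving maps of `ℓ²(ℤ^d)` with `U 0 = 1` and `i ∂_t (U_t u) = Δ_ω U_t u`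
at every site -/
structure IsPropagator {d : ℕ} (ω : Pot d) (U : ℝ → L2 d → L2 d) : Prop where
  zero : ∀ u, U 0 u = u
  norm : ∀ t u, ‖U t u‖ = ‖u‖
  schrodinger : ∀ u t j, HasDerivAt (fun s => (U s u) j)
    (-Complex.I * H ω (fun k => (U t u) k) j) t

/-- linear operators -/
def Linear {d : ℕ} (A : Pot d → L2 d → L2 d) : Prop :=
  ∀ (ω : Pot d) (c : ℂ) (u w : L2 d), A ω (c • u + w) = c • A ω u + A ω w

/-- bounded, uniformly in `ω` -/
def Bounded {d : ℕ} (A : Pot d → L2 d → L2 d) : Prop :=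
  ∃ M : ℝ, ∀ (ω : Pot d) (u : L2 d), ‖A ω u‖ ≤ M * ‖u‖

/-- `A_ω u` depends measurably on `ω` -/
def MeasurableField {d : ℕ} (A : Pot d → L2 d → L2 d) : Prop :=
  ∀ (u : L2 d) (j : Fin d → ℤ), Measurable fun ω => (A ω u) j

/-- covariant under all translations at `ω`: if `w = u(· + z)` then
`A_{ω(· + z)} w = (A_ω u)(· + z)` -/
def CovariantAt {d : ℕ} (A : Pot d → L2 d → L2 d) (ω : Pot d) : Prop :=
  ∀ (z : Fin d → ℤ) (u w : L2 d), (∀ j, w j = u (j + z)) →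
    ∀ j, (A (fun k => ω (k + z)) w) j = (A ω u) (j + z)

/-- the law of iid variables with law `μ` on `ℤ^d` -/
noncomputable def iid (d : ℕ) (μ : Measure ℝ) : Measure (Pot d) :=
  Measure.infinitePi fun _ => μ

/-- the uniform law on `[-c, c]` -/
noncomputable def unif (c : ℝ) : Measure ℝ :=
  ENNReal.ofReal (1 / (2 * c)) • volume.restrict (Set.Icc (-c) c)

/-- `A_ω` is an observable: linear operators, bounded uniformly in `ω`, measurable in `ω`, and
almost surely covariant under translations -/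
structure IsObservable {d : ℕ} (μ : Measure ℝ) (A : Pot d → L2 d → L2 d) : Prop where
  linear : Linear A
  bounded : Bounded A
  measurable : MeasurableField A
  covariant : ∀ᵐ ω ∂(iid d μ), CovariantAt A ω

/-- `m` is the spectral measure of `u`: the finite measure with
`⟨u, e^{-itΔ_ω} u⟩ = ∫ e^{-itE} dm(E)` -/
def IsSpectral {d : ℕ} (U : ℝ → L2 d → L2 d) (u : L2 d) (m : Measure ℝ) : Prop :=
  IsFiniteMeasure m ∧
    ∀ t : ℝ, ⟪u, U t u⟫_ℂ = ∫ E : ℝ, Complex.exp (-(Complex.I * t * E)) ∂m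

/-- `u` is in the absolutely continuous subspace -/
def IsAC {d : ℕ} (U : ℝ → L2 d → L2 d) (u : L2 d) : Prop :=
  ∃ m : Measure ℝ, IsSpectral U u m ∧ m ≪ volume

/-- `w = f(Δ_ω) u`: with the spectral measure `m` of `u`, `⟨e^{-itΔ_ω} u, w⟩ = ∫ e^{itE} f(E) dm(E)`
for all `t`, and `‖w‖² = ∫ |f|² dm` -/
def IsFunctionOf {d : ℕ} (U : ℝ → L2 d → L2 d) (f : ℝ → ℂ) (u w : L2 d) : Prop :=
  ∃ m : Measure ℝ, IsSpectral U u m ∧
    (∀ t : ℝ, ⟪U t u, w⟫_ℂ = ∫ E : ℝ, Complex.exp (Complex.I * t * E) * f E ∂m) ∧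
    ‖w‖ ^ 2 = ∫ E, ‖f E‖ ^ 2 ∂m

/-- `p` is the orthogonal projection of `u` to the absolutely continuous subspace -/
def IsACPart {d : ℕ} (U : ℝ → L2 d → L2 d) (u p : L2 d) : Prop :=
  IsAC U p ∧ ∀ w : L2 d, IsAC U w → ⟪u - p, w⟫_ℂ = 0

/-- the expectation `E⟨φ, ψ⟩` -/
noncomputable def mean {d : ℕ} (μ : Measure ℝ) (φ ψ : Pot d → L2 d) : ℂ :=
  ∫ ω, ⟪φ ω, ψ ω⟫_ℂ ∂(iid d μ)

/-- `p(ω)` is the part of `δ_0` in the absolutely continuous subspace of `Δ_ω`, and the absolutely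
continuous finite measure `κ` is the density of states of this subspace, that is,
`E ⟨p, e^{-itΔ_ω} p⟩ = ∫ e^{-itE} dκ(E)` for all `t` -/
structure IsDensity {d : ℕ} (μ : Measure ℝ) (U : Pot d → ℝ → L2 d → L2 d)
    (p : Pot d → L2 d) (κ : Measure ℝ) : Prop where
  meas : AEStronglyMeasurable p (iid d μ)
  part : ∀ᵐ ω ∂(iid d μ), IsACPart (U ω) (lp.single 2 0 1) (p ω)
  finite : IsFiniteMeasure κ
  ac : κ ≪ volume
  fourier : ∀ t : ℝ, mean μ p (fun ω => U ω t (p ω)) =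
    ∫ E : ℝ, Complex.exp (-(Complex.I * t * E)) ∂κ

/-- the bounded Borel function `f` is the microcanonical average of the observable `A`:
`E ⟨e^{-itΔ_ω} p, A_ω p⟩ = ∫ e^{itE} f(E) dκ(E)` for all `t`. This determines `f` up to `κ`-null
sets. -/
structure IsMicrocanonical {d : ℕ} (μ : Measure ℝ) (U : Pot d → ℝ → L2 d → L2 d)
    (p : Pot d → L2 d) (κ : Measure ℝ) (A : Pot d → L2 d → L2 d)
    (f : ℝ → ℂ) : Prop where
  meas : Measurable f
  bounded : ∃ M : ℝ, ∀ E, ‖f E‖ ≤ M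
  formula : ∀ t : ℝ, mean μ (fun ω => U ω t (p ω)) (fun ω => A ω (p ω)) =
    ∫ E : ℝ, Complex.exp (Complex.I * t * E) * f E ∂κ

/-- the observable at time `s`, `e^{isΔ} A e^{-isΔ}`, applied to `u` -/
def evolved {d : ℕ} (U : ℝ → L2 d → L2 d) (A : L2 d → L2 d) (s : ℝ) (u : L2 d) : L2 d :=
  U (-s) (A (U s u))

/-- `F(s) → a` in the square mean over the times: `T⁻¹ ∫_0^T |F(s) - a|² ds → 0` for `T → ∞` -/
def MeanSquareLimit (F : ℝ → ℂ) (a : ℂ) : Prop :=
  Tendsto (fun T : ℝ => T⁻¹ * ∫ s in (0 : ℝ)..T, ‖F s - a‖ ^ 2) atTop (𝓝 0)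

/-- `ψ` is a square integrable random state in the absolutely continuous subspace -/
structure IsRandomState {d : ℕ} (μ : Measure ℝ) (U : Pot d → ℝ → L2 d → L2 d)
    (ψ : Pot d → L2 d) : Prop where
  memLp : MemLp ψ 2 (iid d μ)
  ac : ∀ᵐ ω ∂(iid d μ), IsAC (U ω) (ψ ω)

/-- for all square integrable random states `ψ` of the absolutely continuous subspace there is
`w = f(Δ_ω) ψ` such that `E⟨φ, A(s) ψ⟩ → E⟨φ, w⟩` in the square mean over the times, for all square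
integrable random vectors `φ` -/
def IsWeaklyMixing {d : ℕ} (μ : Measure ℝ) (U : Pot d → ℝ → L2 d → L2 d)
    (A : Pot d → L2 d → L2 d) (f : ℝ → ℂ) : Prop :=
  ∀ ψ, IsRandomState μ U ψ → ∃ w : Pot d → L2 d, MemLp w 2 (iid d μ) ∧
    (∀ᵐ ω ∂(iid d μ), IsFunctionOf (U ω) f (ψ ω) (w ω)) ∧
    ∀ φ : Pot d → L2 d, MemLp φ 2 (iid d μ) →
      MeanSquareLimit (fun s => mean μ φ fun ω => evolved (U ω) (A ω) s (ψ ω)) (mean μ φ w)

open Pool.Agent.H5R2 Pool.Agent.Y662.ERG Pool.Agent.H988.WM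

theorem sol_of_prop {d : ℕ} {ω : (Fin d → ℤ) → ℝ} {U : ℝ → L2 d → L2 d}
    (hU : IsPropagator ω U) (u : L2 d) :
    NB.IsSol (-1) (fun x => 2 * d + ω x) (fun t => U t u) (fun _ => 0) := by
  refine ⟨fun T => ⟨‖u‖, fun t _ => (hU.norm t u).le⟩, fun t x => ?_⟩
  have h := hU.schrodinger u t x
  have e := NB.FIN.hop_eq ω (fun k => (U t u) k) x
  have e2 : -Complex.I * (NB.hopf (-1) (fun y => (U t u) y) x +
      (((fun x => 2 * d + ω x) x : ℝ) : ℂ) * (U t u) x) + ((0 : L2 d) : (Fin d → ℤ) → ℂ) x =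
      -Complex.I * H ω (fun k => (U t u) k) x := by
    have e3 : H ω (fun k => (U t u) k) x = -(∑ i : Fin d,
        (((U t u) (x + Pi.single i 1) - (U t u) x) + ((U t u) (x - Pi.single i 1) - (U t u) x))) +
        (ω x : ℂ) * (U t u) x := rfl
    rw [e3, ← e]
    simp
  rw [e2]
  exact h

theorem prop_of_grp {d : ℕ} {ω : (Fin d → ℤ) → ℝ} {W : NB.UG (NB.L2 (NB.Site d))}
    (hW : NB.IsGrp (-1) (fun x => 2 * d + ω x) W) : IsPropagator ω (fun t u => W.U t u) := by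
  refine ⟨W.zero', W.norm', fun u t x => ?_⟩
  have h := (hW u).2 t x
  have e := NB.FIN.hop_eq ω (fun k => (W.U t u) k) x
  have e3 : H ω (fun k => (W.U t u) k) x = -(∑ i : Fin d,
        (((W.U t u) (x + Pi.single i 1) - (W.U t u) x) +
          ((W.U t u) (x - Pi.single i 1) - (W.U t u) x))) + (ω x : ℂ) * (W.U t u) x := rfl
  rw [e3, ← e]
  simpa using h

theorem prop_eq {d : ℕ} {ω : (Fin d → ℤ) → ℝ} {W : NB.UG (NB.L2 (NB.Site d))}
    (hW : NB.IsGrp (-1) (fun x => 2 * d + ω x) W) {U : ℝ → L2 d → L2 d}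
    (hU : IsPropagator ω U) (t : ℝ) (u : L2 d) : U t u = W.U t u := by
  have h := NB.ALL.a_UN d (-1) _ W hW (fun t => U t u) (fun _ => 0)
    continuous_const (sol_of_prop hU u) t
  simpa [hU.zero u] using h

/-- the bounded operator -/
noncomputable def toOp {d : ℕ} (A : L2 d → L2 d)
    (hl : ∀ (c : ℂ) (u w : L2 d), A (c • u + w) = c • A u + A w)
    (hb : ∃ M : ℝ, ∀ u, ‖A u‖ ≤ M * ‖u‖) : L2 d →L[ℂ] L2 d :=
  have h0 : A 0 = 0 := by
    have h := hl (-1) 0 0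
    simpa using h
  LinearMap.mkContinuousOfExistsBound
    { toFun := A
      map_add' := fun u w => by
        have h := hl 1 u w
        rwa [one_smul, one_smul] at h
      map_smul' := fun c u => by
        have h := hl c u 0
        rwa [add_zero, h0, add_zero] at h } hb

theorem obs_of {d : ℕ} {μ : Measure ℝ} [IsProbabilityMeasure μ] {A : Pot d → L2 d → L2 d}
    (hA : IsObservable μ A) :
    ∃ (v : Pot d → L2 d →L[ℂ] L2 d) (M : ℝ), (∀ᵐ ω ∂(iid d μ), ∀ u, v ω u = A ω u) ∧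
      Pool.Agent.R988.NQ.Fld M v ∧ Pool.Agent.R988.NQ.Fld M (Pool.Agent.R988.NQ.adjF v) := by
  obtain ⟨M, hM⟩ := hA.bounded
  have hM0 : 0 ≤ M := by
    have h1 := hM 0 (NB.dl 0)
    rw [NB.STAT.norm_dl, mul_one] at h1
    exact (norm_nonneg _).trans h1
  obtain ⟨W, hWA⟩ : ∃ W : Pot d → L2 d →L[ℂ] L2 d, ∀ ω u, W ω u = A ω u :=
    ⟨fun ω => toOp (A ω) (hA.linear ω) ⟨M, hM ω⟩, fun ω u => rfl⟩
  have hcv : ∀ᵐ V ∂(NB.PP d μ), ∀ (z : NB.Site d)
      (S : NB.L2 (NB.Site d) →L[ℂ] NB.L2 (NB.Site d)), NB.IsShift z S → ∀ ψ,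
        W (fun y => V (y + z)) (S ψ) = S (W V ψ) := by
    have h1 : ∀ᵐ ω ∂(NB.PP d μ), CovariantAt A ω := hA.covariant
    filter_upwards [h1] with ω hω z S hS ψ
    ext j
    rw [hWA, hWA, hω z ψ (S ψ) (fun k => hS ψ k) j, hS]
  have hmW : ∀ (u : L2 d) (j : Fin d → ℤ), Measurable fun ω => (W ω u) j := by
    intro u j
    simp only [hWA]
    exact hA.measurable u j
  obtain ⟨W', hW1, hW2, hW3, hW4⟩ := Pool.Agent.R988.NQ.fix_cov hmW hcv
  have hb' : ∀ V ψ, ‖W' V ψ‖ ≤ M * ‖ψ‖ := by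
    intro V ψ
    rcases hW1 V with h | h
    · rw [h, hWA]
      exact hM V ψ
    · rw [h, zero_apply, norm_zero]
      positivity
  refine ⟨W', M, ?_, Pool.Agent.R988.NQ.flds hb' hW2 hW3⟩
  have h2 : ∀ᵐ ω ∂(NB.PP d μ), ∀ u, W' ω u = A ω u := by
    filter_upwards [hW4] with ω hω u
    rw [hω, hWA]
  exact h2

/-- from the fibres to the functional calculus -/
theorem func_of {d : ℕ} {K : ℝ} {ω : (Fin d → ℤ) → ℝ} {V : ℝ → L2 d → L2 d}
    (hV : ∀ t u, V t u = Ex (Pool.Agent.TH980.IM.HV K ω) t u)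
    {B : L2 d →L[ℂ] L2 d}
    (h2 : ∀ x, B (Pool.Agent.TH980.IM.HV K ω x) = Pool.Agent.TH980.IM.HV K ω (B x))
    {f : ℝ → ℂ} (hf : Measurable f) {R : ℝ} (hR : ∀ E, ‖f E‖ ≤ R)
    (h3 : ∀ ψ, ∀ᵐ E : ℝ, Ngl (Pool.Agent.TH980.IM.HV K ω) E (B ψ - f E • ψ))
    (h4 : ∀ ψ, Pool.Agent.TH980.IM.spm (Pool.Agent.TH980.IM.HV_sa K ω) ψ ≪ volume →
      ∀ t : ℝ, ⟪Ex (Pool.Agent.TH980.IM.HV K ω) t ψ, B ψ⟫_ℂ =
        ∫ E : ℝ, Complex.exp (Complex.I * t * E) * f E
          ∂(Pool.Agent.TH980.IM.spm (Pool.Agent.TH980.IM.HV_sa K ω) ψ))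
    {u : L2 d} (hu : IsAC V u) : IsFunctionOf V f u (B u) := by
  have hsa := Pool.Agent.TH980.IM.HV_sa K ω
  obtain ⟨m, hms, hm3⟩ := hu
  have hfin := hms.1
  have hmm : m = Pool.Agent.TH980.IM.spm hsa u :=
    spm_unique hsa u m fun t => by rw [← hV, hms.2 t]
  have hac' : Pool.Agent.TH980.IM.spm hsa u ≪ volume := hmm ▸ hm3
  refine ⟨m, hms, fun t => ?_, ?_⟩
  · rw [hV, h4 u hac' t, ← hmm]
  · have h5 := norm_of_ngl' hsa h2 hf hR hac' (h3 u)
    rw [← hmm] at h5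
    exact h5

/-- the theorem for all laws of bounded support which are not point masses -/
theorem general (d : ℕ) (hd : 1 ≤ d) (μ : Measure ℝ) [IsProbabilityMeasure μ]
    (hb : ∃ K : ℝ, ∀ᵐ r ∂μ, |r| ≤ K) (hμ : ∀ r : ℝ, μ {r} ≠ 1) :
    (∀ ω : Pot d, ∃! U : ℝ → L2 d → L2 d, IsPropagator ω U) ∧
    ∀ U : Pot d → ℝ → L2 d → L2 d, (∀ ω, IsPropagator ω (U ω)) →
      ∃ (p : Pot d → L2 d) (κ : Measure ℝ) (f : (Pot d → L2 d → L2 d) → ℝ → ℂ),
        IsDensity μ U p κ ∧ ∀ A : Pot d → L2 d → L2 d, IsObservable μ A →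
          IsMicrocanonical μ U p κ A (f A) ∧ IsWeaklyMixing μ U A (f A) ∧
          ∀ A' : Pot d → L2 d → L2 d, IsObservable μ A' →
            MeanSquareLimit
              (fun s => mean μ (fun ω => A' ω (p ω)) fun ω => evolved (U ω) (A ω) s (p ω))
              (∫ E, conj (f A' E) * f A E ∂κ) := by
  obtain ⟨K, hK⟩ := hb
  refine ⟨fun ω => ?_, fun U hU => ?_⟩
  · obtain ⟨W, hW⟩ := NB.ALL.a_EX d (-1) (fun x => 2 * d + ω x)
    refine ⟨fun t u => W.U t u, prop_of_grp hW, fun U hU => ?_⟩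
    funext t u
    exact prop_eq hW hU t u
  choose ev hev using fun ω : NB.Site d → ℝ => NB.ALL.a_EX d (-1) (fun x => 2 * d + ω x)
  have hUe : ∀ ω t u, U ω t u = (ev ω).U t u := fun ω t u => prop_eq (hev ω) (hU ω) t u
  have hbd := bd_ae (d := d) hK
  have hbd' : ∀ᵐ ω ∂(iid d μ), ∀ x, |ω x| ≤ K := hbd
  have hUx : ∀ ω : NB.Site d → ℝ, (∀ x, |ω x| ≤ K) → ∀ t u,
      U ω t u = Ex (Pool.Agent.TH980.IM.HV K ω) t u := by
    intro ω h1 t u
    rw [hUe, grp_Ex h1 (hev ω)]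
  have hac_iff : ∀ ω : (Fin d → ℤ) → ℝ, (∀ x, |ω x| ≤ K) → ∀ u : L2 d,
      IsAC (U ω) u ↔ Pool.Agent.TH980.IM.spm (Pool.Agent.TH980.IM.HV_sa K ω) u ≪ volume := by
    intro ω h1 u
    constructor
    · rintro ⟨m, ⟨hm1, hm2⟩, hm3⟩
      have hmm : m = Pool.Agent.TH980.IM.spm (Pool.Agent.TH980.IM.HV_sa K ω) u :=
        spm_unique _ u m fun t => by rw [← hUx ω h1, hm2 t]
      rw [← hmm]
      exact hm3
    · intro h
      refine ⟨_, ⟨inferInstance, fun t => ?_⟩, h⟩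
      rw [hUx ω h1, Ex_spm]
  obtain ⟨κ, hκ1, hκ2, hκ⟩ := dos (d := d) K μ
  -- the data of one observable
  have hdata : ∀ A : Pot d → L2 d → L2 d, IsObservable μ A →
      ∃ (v B : Pot d → L2 d →L[ℂ] L2 d) (f : ℝ → ℂ) (M C : ℝ),
        (∀ᵐ ω ∂(iid d μ), ∀ u, v ω u = A ω u) ∧ Pool.Agent.R988.NQ.Fld M v ∧
        Pool.Agent.R988.NQ.Fld M (Pool.Agent.R988.NQ.adjF v) ∧ Pool.Agent.R988.NQ.Fld C B ∧
        Pool.Agent.R988.NQ.Fld C (Pool.Agent.R988.NQ.adjF B) ∧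
        (∀ V t x, B V ((ev V).U t x) = (ev V).U t (B V x)) ∧ Measurable f ∧
        (∃ R : ℝ, ∀ E, ‖f E‖ ≤ R) ∧
        (∀ᵐ ω ∂(NB.PP d μ), (∀ x, |ω x| ≤ K) ∧
          (∀ x, B ω (Pool.Agent.TH980.IM.HV K ω x) = Pool.Agent.TH980.IM.HV K ω (B ω x)) ∧
          (∀ ψ, ∀ᵐ E : ℝ, Ngl (Pool.Agent.TH980.IM.HV K ω) E (B ω ψ - f E • ψ)) ∧
          ∀ ψ, Pool.Agent.TH980.IM.spm (Pool.Agent.TH980.IM.HV_sa K ω) ψ ≪ volume →
            ∀ t : ℝ, ⟪Ex (Pool.Agent.TH980.IM.HV K ω) t ψ, B ω ψ⟫_ℂ =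
              ∫ E : ℝ, Complex.exp (Complex.I * t * E) * f E
                ∂(Pool.Agent.TH980.IM.spm (Pool.Agent.TH980.IM.HV_sa K ω) ψ)) ∧
        ∀ ψ : (NB.Site d → ℝ) → L2 d, MemLp ψ 2 (NB.PP d μ) →
          (∀ᵐ ω ∂(NB.PP d μ),
            Pool.Agent.TH980.IM.spm (Pool.Agent.TH980.IM.HV_sa K ω) (ψ ω) ≪ volume) →
          Wk (NB.PP d μ) (Hz ev (Pool.Agent.R988.NQ.subF v B)) ψ ∧
            Mn 0 (NB.PP d μ) (Hz ev (Pool.Agent.R988.NQ.subF v B)) ψ ∧
            ∀ lam : ℝ, lam ≠ 0 → Mn lam (NB.PP d μ) (Hz ev v) ψ := by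
    intro A hA
    obtain ⟨v, M, hvA, hO, hO'⟩ := obs_of hA
    obtain ⟨B, f, C, _, hB, hB', cB, _, hf1, hf2, hf3, hwm⟩ := main_wm hd hK hμ hev hO hO'
    exact ⟨v, B, f, M, C, hvA, hO, hO', hB, hB', cB, hf1, hf2, hf3, hwm⟩
  classical
  choose! v B f M C hvA hO hO' hB hB' cB hf1 hf2 hf3 hwm using hdata
  have hp : ∀ᵐ ω ∂(NB.PP d μ), Pool.Agent.TH980.IM.spm (Pool.Agent.TH980.IM.HV_sa K ω)
      (PA K ω (NB.dl 0)) ≪ volume := Eventually.of_forall fun ω => acP_ac _ _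
  have hpm : MemLp (fun ω => PA K ω (NB.dl 0 : L2 d)) 2 (NB.PP d μ) := by
    refine MemLp.of_bound (PA_aesm K μ aestronglyMeasurable_const) 1
      (Eventually.of_forall fun ω => ?_)
    refine (acP_norm _ _).trans ?_
    rw [NB.STAT.norm_dl]
  refine ⟨fun ω => PA K ω (NB.dl 0), κ, f, ⟨?_, ?_, hκ1, hκ2, fun t => ?_⟩, fun A hA => ?_⟩
  · exact PA_aesm K μ aestronglyMeasurable_const
  · filter_upwards [hbd'] with ω h1
    refine ⟨(hac_iff ω h1 _).2 (acP_ac _ _), fun w hw => ?_⟩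
    exact acP_orth _ ((hac_iff ω h1 w).1 hw) _
  · rw [← hκ (fun E => Complex.exp (-(Complex.I * t * E))) (by fun_prop)
      ⟨1, fun E => by rw [Complex.norm_exp]; simp⟩]
    refine integral_congr_ae ?_
    filter_upwards [hbd'] with ω hω
    rw [hUx ω hω, Ex_spm (Pool.Agent.TH980.IM.HV_sa K ω)]
  -- one observable
  have hMn : ∀ (D : Pot d → L2 d →L[ℂ] L2 d) (R : ℝ), Pool.Agent.R988.NQ.Fld R D → 0 ≤ R :=
    fun D R hD => hD.nonneg
  have hstate : ∀ ψ, IsRandomState μ U ψ → ∀ᵐ ω ∂(NB.PP d μ),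
      Pool.Agent.TH980.IM.spm (Pool.Agent.TH980.IM.HV_sa K ω) (ψ ω) ≪ volume := by
    intro ψ hψ
    have h1 : ∀ᵐ ω ∂(NB.PP d μ), IsAC (U ω) (ψ ω) := hψ.ac
    filter_upwards [h1, hbd] with ω e1 e2
    exact (hac_iff ω e2 _).1 e1
  -- the main step
  have hmix : ∀ (A : Pot d → L2 d → L2 d), IsObservable μ A → ∀ ψ, MemLp ψ 2 (iid d μ) →
      (∀ᵐ ω ∂(NB.PP d μ),
        Pool.Agent.TH980.IM.spm (Pool.Agent.TH980.IM.HV_sa K ω) (ψ ω) ≪ volume) →
      MemLp (fun ω => B A ω (ψ ω)) 2 (iid d μ) ∧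
      ∀ φ : Pot d → L2 d, MemLp φ 2 (iid d μ) →
      MeanSquareLimit (fun s => mean μ φ fun ω => evolved (U ω) (A ω) s (ψ ω))
        (mean μ φ fun ω => B A ω (ψ ω)) := by
    intro A hA ψ hψ hψa
    have hψ' : MemLp ψ 2 (NB.PP d μ) := hψ
    have hLv := lo_Hz hev μ (hMn _ _ (hO A hA)) (hO A hA)
    have hLB := lo_Hz hev μ (hMn _ _ (hB A hA)) (hB A hA)
    have hBm : MemLp (fun ω => B A ω (ψ ω)) 2 (NB.PP d μ) := by
      refine MemLp.of_le_mul (c := C A) hψ' ?_ (Eventually.of_forall fun ω => (hB A hA).bd ω _)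
      have h1 := hLB.aesm 0 hψ'.1
      simp only [Hz_cons (cB A hA)] at h1
      exact h1
    refine ⟨hBm, fun φ hφ => ?_⟩
    have hφ' : MemLp φ 2 (NB.PP d μ) := hφ
    have h2 := (hwm A hA ψ hψ' hψa).1 φ hφ'
    refine h2.congr fun T => ?_
    congr 1
    refine intervalIntegral.integral_congr fun s _ => ?_
    show ‖∫ ω, ⟪φ ω, Hz ev (Pool.Agent.R988.NQ.subF (v A) (B A)) s ω (ψ ω)⟫_ℂ ∂(NB.PP d μ)‖ ^ 2 =
      ‖mean μ φ (fun ω => evolved (U ω) (A ω) s (ψ ω)) - mean μ φ fun ω => B A ω (ψ ω)‖ ^ 2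
    congr 2
    have e1 : mean μ φ (fun ω => evolved (U ω) (A ω) s (ψ ω)) =
        ∫ ω, ⟪φ ω, Hz ev (v A) s ω (ψ ω)⟫_ℂ ∂(NB.PP d μ) := by
      refine integral_congr_ae ?_
      filter_upwards [hvA A hA] with ω hω
      unfold evolved
      rw [hUe, hUe, ← hω, Hz_apply]
    have e2 : mean μ φ (fun ω => B A ω (ψ ω)) =
        ∫ ω, ⟪φ ω, Hz ev (B A) s ω (ψ ω)⟫_ℂ ∂(NB.PP d μ) := by
      refine integral_congr_ae (Eventually.of_forall fun ω => ?_)
      show ⟪φ ω, B A ω (ψ ω)⟫_ℂ = ⟪φ ω, Hz ev (B A) s ω (ψ ω)⟫_ℂ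
      rw [Hz_cons (cB A hA)]
    rw [e1, e2, ← integral_sub (hLv.integ hφ' hψ' s) (hLB.integ hφ' hψ' s)]
    refine integral_congr_ae (Eventually.of_forall fun ω => ?_)
    simp only [Hz_sub, inner_sub_right]
  refine ⟨⟨hf1 A hA, hf2 A hA, fun t => ?_⟩, fun ψ hψ => ?_, fun A' hA' => ?_⟩
  · -- the microcanonical average
    have h1 := mic_gen hK hev hκ (hO A hA) (hO' A hA) (hB A hA) (hB' A hA) (hf1 A hA) (hf2 A hA)
      (by
        filter_upwards [hf3 A hA] with ω h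
        exact ⟨h.1, h.2.2.2⟩) (hwm A hA _ hpm hp).1 t
    rw [← h1]
    refine integral_congr_ae ?_
    filter_upwards [hvA A hA] with ω hω
    show ⟪U ω t (PA K ω (NB.dl 0)), A ω (PA K ω (NB.dl 0))⟫_ℂ = _
    rw [hUe, ← hω]
  · -- weak mixing
    obtain ⟨h1, h2⟩ := hmix A hA ψ hψ.memLp (hstate ψ hψ)
    refine ⟨fun ω => B A ω (ψ ω), h1, ?_, h2⟩
    obtain ⟨R, hR⟩ := hf2 A hA
    have h4 : ∀ᵐ ω ∂(NB.PP d μ), IsFunctionOf (U ω) (f A) (ψ ω) (B A ω (ψ ω)) := by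
      have h5 : ∀ᵐ ω ∂(NB.PP d μ), IsAC (U ω) (ψ ω) := hψ.ac
      filter_upwards [hf3 A hA, h5] with ω ⟨e1, e2, e3, e4⟩ e5
      exact func_of (hUx ω e1) e2 (hf1 A hA) hR e3 e4 e5
    exact h4
  · -- correlations
    have hp0 : MemLp (fun ω => A' ω (PA K ω (NB.dl 0))) 2 (NB.PP d μ) := by
      have hLv := lo_Hz hev μ (hMn _ _ (hO A' hA')) (hO A' hA')
      have h1 : AEStronglyMeasurable (fun ω => v A' ω (PA K ω (NB.dl 0))) (NB.PP d μ) := by
        have h2 := hLv.aesm 0 hpm.1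
        refine h2.congr (Eventually.of_forall fun ω => ?_)
        show Hz ev (v A') 0 ω (PA K ω (NB.dl 0)) = v A' ω (PA K ω (NB.dl 0))
        rw [Hz_apply, neg_zero, (ev ω).zero', (ev ω).zero']
      have h2 : MemLp (fun ω => v A' ω (PA K ω (NB.dl 0))) 2 (NB.PP d μ) :=
        MemLp.of_le_mul (c := M A') hpm h1 (Eventually.of_forall fun ω => (hO A' hA').bd ω _)
      refine h2.ae_eq ?_
      have h3 : ∀ᵐ ω ∂(NB.PP d μ), ∀ u, v A' ω u = A' ω u := hvA A' hA'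
      filter_upwards [h3] with ω hω
      rw [hω]
    have h1 := (hmix A hA _ hpm hp).2 _ hp0
    have h2 := cor_B hK hev hκ (hO A' hA') (hO' A' hA') (hB A' hA') (hB' A' hA') (hB A hA)
      (hB' A hA) (cB A hA) (hf1 A' hA') (hf1 A hA) (hf2 A' hA') (hf2 A hA)
      (by
        filter_upwards [hf3 A' hA'] with ω h
        exact ⟨h.1, h.2.1, h.2.2.1⟩)
      (by
        filter_upwards [hf3 A hA] with ω h
        exact ⟨h.1, h.2.1, h.2.2.1⟩) (hwm A' hA' _ hpm hp).1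
    have h3 : mean μ (fun ω => A' ω (PA K ω (NB.dl 0))) (fun ω => B A ω (PA K ω (NB.dl 0))) =
        ∫ E, conj (f A' E) * f A E ∂κ := by
      rw [← h2]
      refine integral_congr_ae ?_
      filter_upwards [hvA A' hA'] with ω hω
      show ⟪A' ω (PA K ω (NB.dl 0)), B A ω (PA K ω (NB.dl 0))⟫_ℂ = _
      rw [hω]
    rw [← h3]
    exact h1

theorem unif_prob (c : ℝ) (hc : 0 < c) : IsProbabilityMeasure (unif c) := by
  refine ⟨?_⟩
  unfold unif
  rw [Measure.smul_apply, Measure.restrict_apply MeasurableSet.univ, Set.univ_inter,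
    Real.volume_Icc, smul_eq_mul, ← ENNReal.ofReal_mul (by positivity)]
  have : 1 / (2 * c) * (c - -c) = 1 := by
    field_simp
    ring
  rw [this, ENNReal.ofReal_one]

theorem unif_bdd (c : ℝ) : ∀ᵐ s ∂(unif c), |s| ≤ c := by
  unfold unif
  refine Measure.ae_smul_measure ?_ _
  filter_upwards [ae_restrict_mem measurableSet_Icc] with s hs
  exact abs_le.2 hs

theorem unif_atom (c r : ℝ) : unif c {r} ≠ 1 := by
  unfold unif
  rw [Measure.smul_apply, Measure.restrict_apply (measurableSet_singleton r)]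
  have h0 : (volume : Measure ℝ) ({r} ∩ Set.Icc (-c) c) = 0 :=
    measure_mono_null Set.inter_subset_left (by simp)
  rw [h0]
  simp

/-- Let `d ≥ 1` and `c > 0`. For every potential the unitary group exists and is unique. There are
the absolutely continuous part `p` of `δ_0`, the density of states `κ` of the absolutely continuous
subspace, and for every observable `A` its microcanonical average `f A` such that the evolution of
`A` is weakly mixing on the absolutely continuous subspace, with the limit `(f A)(Δ_ω)`, and the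
correlation functions of `A` with all observables `A'` tend, in the square mean over the times, to
`∫ conj (f A') (f A) dκ`. -/
theorem result (d : ℕ) (hd : 1 ≤ d) (c : ℝ) (hc : 0 < c) :
    (∀ ω : Pot d, ∃! U : ℝ → L2 d → L2 d, IsPropagator ω U) ∧
    ∀ U : Pot d → ℝ → L2 d → L2 d, (∀ ω, IsPropagator ω (U ω)) →
      ∃ (p : Pot d → L2 d) (κ : Measure ℝ) (f : (Pot d → L2 d → L2 d) → ℝ → ℂ),
        IsDensity (unif c) U p κ ∧ ∀ A : Pot d → L2 d → L2 d, IsObservable (unif c) A →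
          IsMicrocanonical (unif c) U p κ A (f A) ∧ IsWeaklyMixing (unif c) U A (f A) ∧
          ∀ A' : Pot d → L2 d → L2 d, IsObservable (unif c) A' →
            MeanSquareLimit
              (fun s => mean (unif c) (fun ω => A' ω (p ω)) fun ω => evolved (U ω) (A ω) s (p ω))
              (∫ E, conj (f A' E) * f A E ∂κ) := by
  have := unif_prob c hc
  exact general d hd (unif c) ⟨c, unif_bdd c⟩ (unif_atom c)

end Pool.Agent.Results.MP_562b47_mp.WeakMixing
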